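import Mathlib
import Pool.Agent.H55.Nd1

/-! A coherent `ℵ₂`-Souslin tree gives a perfectly normal non-archimedean space without a
point-countable base. -/

namespace Pool.Agent.Results.MP_0d2ecd_gt.CohTree

open Set Cardinal TopologicalSpace

/-- the well order `ω₂` -/
abbrev W2 : Type := (ℵ_ 2 : Cardinal.{0}).ord.ToType

/-- the functions `e α` restricted to `[0, α)` cohere modulo finite sets -/
def Coherent (e : W2 → W2 → ℕ) : Prop := ∀ α β, α ≤ β → {ξ | ξ < α ∧ e α ξ ≠ e β ξ}.Finite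

/-- `p.2` restricted to `[0, p.1)` is a finite modification of `e p.1` -/
def Node (e : W2 → W2 → ℕ) (p : W2 × (W2 → ℕ)) : Prop := {ξ | ξ < p.1 ∧ p.2 ξ ≠ e p.1 ξ}.Finite

/-- incomparable nodes -/
def Incomp (p q : W2 × (W2 → ℕ)) : Prop := ∃ ξ, ξ < p.1 ∧ ξ < q.1 ∧ p.2 ξ ≠ q.2 ξ

/-- there is a uniformly coherent `ℵ₂`-Souslin tree of integer sequences -/
def CohSouslin : Prop := ∃ e, Coherent e ∧
  ∀ A : Set (W2 × (W2 → ℕ)), (∀ p ∈ A, Node e p) → A.Pairwise Incomp → #A < ℵ_ 2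

theorem two : (ℵ_ 2 : Cardinal.{0}) = Order.succ (ℵ_ 1) := by
  rw [succ_aleph, one_add_one_eq_two]

theorem bd2 (S : Set W2) (hS : #S < ℵ_ 2) : ∃ β, ∀ α ∈ S, α < β := by
  by_contra h
  push Not at h
  have h1 : ∀ α : W2, #(Iic α) ≤ ℵ_ 1 := fun α => by
    rw [← Iio_insert]
    refine mk_insert_le.trans ?_
    have := (mk_Iio_lt α (by simp)).trans_eq ((mk_ord_toType _).trans two)
    exact (add_le_add (Order.lt_succ_iff.1 this) (one_le_aleph0.trans (aleph0_le_aleph 1))).trans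
      (add_eq_self (aleph0_le_aleph 1)).le
  have h2 := (mk_biUnion_le (fun α => Iic α) S).trans (mul_le_mul' (Order.lt_succ_iff.1
    (hS.trans_eq two)) (ciSup_le' fun α => h1 α))
  rw [mul_eq_self (aleph0_le_aleph 1), eq_univ_of_forall fun β => mem_iUnion₂.2
    (by obtain ⟨α, a, b⟩ := h β; exact ⟨α, a, b⟩), mk_univ, mk_ord_toType, two] at h2
  exact absurd h2 (Order.lt_succ _).not_ge

def T (e : W2 → W2 → ℕ) : Type := {p : W2 × (W2 → ℕ) // Node e p ∧ ∀ ξ, p.1 ≤ ξ → p.2 ξ = 0}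

variable {e : W2 → W2 → ℕ}

def Lt (s t : T e) : Prop := s.1.1 < t.1.1 ∧ ∀ ξ < s.1.1, s.1.2 ξ = t.1.2 ξ

def V (s : T e) (k : ℕ) : Set (T e) := {t | t = s ∨ Lt s t ∧ k ≤ t.1.2 s.1.1}

theorem ext {s t : T e} (h : s.1.1 = t.1.1) (h' : ∀ ξ < s.1.1, s.1.2 ξ = t.1.2 ξ) : s = t :=
  Subtype.ext (Prod.ext h (funext fun ξ => (lt_or_ge ξ s.1.1).elim (h' ξ)
    fun k => (s.2.2 ξ k).trans (t.2.2 ξ (h ▸ k)).symm))

theorem ag {s u : T e} {k} (h : u ∈ V s k) : s.1.1 ≤ u.1.1 ∧ ∀ ξ < s.1.1, s.1.2 ξ = u.1.2 ξ :=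
  h.elim (fun h => h ▸ ⟨le_rfl, fun _ _ => rfl⟩) fun h => ⟨h.1.1.le, h.1.2⟩

theorem tri {s t u : T e} {k j} (h : u ∈ V s k) (h' : u ∈ V t j) : s = t ∨ Lt s t ∨ Lt t s := by
  rcases lt_trichotomy s.1.1 t.1.1 with c | c | c
  · exact Or.inr (Or.inl ⟨c, fun ξ a => ((ag h).2 ξ a).trans ((ag h').2 ξ (a.trans c)).symm⟩)
  · exact Or.inl (ext c fun ξ a => ((ag h).2 ξ a).trans ((ag h').2 ξ (c ▸ a)).symm)
  · exact Or.inr (Or.inr ⟨c, fun ξ a => ((ag h').2 ξ a).trans ((ag h).2 ξ (a.trans c)).symm⟩)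

theorem meet {s t u : T e} {k j} (h : u ∈ V s k) (h' : u ∈ V t j) (c : Lt s t) :
    k ≤ t.1.2 s.1.1 := by
  rcases h with rfl | h
  · exact absurd c.1 (ag h').1.not_gt
  · exact ((ag h').2 _ c.1).symm ▸ h.2

theorem sub {s t : T e} {k} (j) (c : Lt s t) (h : k ≤ t.1.2 s.1.1) : V t j ⊆ V s k := fun _ hu =>
  Or.inr ⟨⟨c.1.trans_le (ag hu).1, fun ξ a => (c.2 ξ a).trans ((ag hu).2 ξ (a.trans c.1))⟩,
    (ag hu).2 _ c.1 ▸ h⟩

theorem anti (s : T e) {k j} (h : k ≤ j) : V s j ⊆ V s k := fun _ hu =>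
  hu.imp id fun a => ⟨a.1, h.trans a.2⟩

instance : TopologicalSpace (T e) where
  IsOpen U := ∀ t ∈ U, ∃ k, V t k ⊆ U
  isOpen_univ _ _ := ⟨0, subset_univ _⟩
  isOpen_inter U U' h h' t ht := by
    obtain ⟨k, a⟩ := h t ht.1
    obtain ⟨j, b⟩ := h' t ht.2
    exact ⟨max k j, subset_inter ((anti t (le_max_left _ _)).trans a)
      ((anti t (le_max_right _ _)).trans b)⟩
  isOpen_sUnion S h t := by
    rintro ⟨U, a, b⟩
    exact (h U a t b).imp fun k c => c.trans (subset_sUnion_of_mem a)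

theorem op (s : T e) (k) : IsOpen (V s k) := by
  rintro t (rfl | h)
  · exact ⟨k, Subset.rfl⟩
  · exact ⟨0, sub 0 h.1 h.2⟩

theorem basis : IsTopologicalBasis (range fun p : T e × ℕ => V p.1 p.2) :=
  isTopologicalBasis_of_isOpen_of_nhds (by rintro _ ⟨p, rfl⟩; exact op _ _) fun t U ht hU => by
    obtain ⟨k, h⟩ := hU t ht
    exact ⟨_, ⟨(t, k), rfl⟩, Or.inl rfl, h⟩

theorem bound (hc : Coherent e) (hs : ∀ A : Set (W2 × (W2 → ℕ)), (∀ p ∈ A, Node e p) →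
    A.Pairwise Incomp → #A < ℵ_ 2) (A : Set (T e)) (k : T e → ℕ)
    (h : ∀ s ∈ A, ∀ t ∈ A, Lt s t → t.1.2 s.1.1 ≠ k s) : ∃ β, ∀ s ∈ A, s.1.1 < β := by
  classical
  choose nx hn using fun α : W2 => bd2 {α} (by
    rw [mk_singleton]; exact one_lt_aleph0.trans_le (aleph0_le_aleph 2))
  have n1 : ∀ α, α < nx α := fun α => hn α α rfl
  obtain ⟨c, c1, c2⟩ : ∃ c : T e → W2 × (W2 → ℕ), (∀ s, (c s).1 = nx s.1.1) ∧ ∀ s ξ, (c s).2 ξ =
      if ξ < s.1.1 then s.1.2 ξ else if ξ = s.1.1 then k s else e (nx s.1.1) ξ :=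
    ⟨fun s => (_, _), fun _ => rfl, fun _ _ => rfl⟩
  have key : ∀ s ∈ A, ∀ t ∈ A, s ≠ t → s.1.1 ≤ t.1.1 → Incomp (c s) (c t) := fun s a t b n l => by
    by_cases d : ∀ ξ < s.1.1, s.1.2 ξ = t.1.2 ξ
    · have l' := l.lt_of_ne fun u => n (ext u d)
      refine ⟨s.1.1, c1 s ▸ n1 _, c1 t ▸ l'.trans (n1 _), ?_⟩
      rw [c2, c2, if_neg (lt_irrefl _), if_pos rfl, if_pos l']
      exact (h s a t b ⟨l', d⟩).symm
    · push Not at d
      obtain ⟨ξ, d1, d2⟩ := d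
      refine ⟨ξ, c1 s ▸ d1.trans (n1 _), c1 t ▸ (d1.trans_le l).trans (n1 _), ?_⟩
      rwa [c2, c2, if_pos d1, if_pos (d1.trans_le l)]
  obtain ⟨β, hβ⟩ := bd2 (Prod.fst '' (c '' A)) (mk_image_le.trans_lt (hs _ (by
    rintro _ ⟨s, -, rfl⟩
    refine ((s.2.1.union (hc _ _ (n1 s.1.1).le)).insert s.1.1).subset fun ξ hξ => ?_
    have := hξ.2
    rw [c1, c2] at this
    split_ifs at this with u v
    · by_contra w
      simp only [mem_insert_iff, mem_union, mem_ofPred_eq, u, true_and, not_or, not_not] at w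
      exact this (w.2.1.trans w.2.2)
    · exact Or.inl v
    · exact absurd rfl this) (by
    rintro _ ⟨s, a, rfl⟩ _ ⟨t, b, rfl⟩ n
    have n' : s ≠ t := fun u => n (u ▸ rfl)
    rcases le_total s.1.1 t.1.1 with l | l
    · exact key s a t b n' l
    · obtain ⟨ξ, u, v, w⟩ := key t b s a n'.symm l
      exact ⟨ξ, v, u, w.symm⟩)))
  exact ⟨β, fun s a => (n1 _).trans (c1 s ▸ hβ _ ⟨_, ⟨s, a, rfl⟩, rfl⟩)⟩

theorem perf (hc : Coherent e) (hs : ∀ A : Set (W2 × (W2 → ℕ)), (∀ p ∈ A, Node e p) →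
    A.Pairwise Incomp → #A < ℵ_ 2) {U : Set (T e)} (hU : IsOpen U) :
    ∃ C : ℕ → Set (T e), (∀ n, IsClopen (C n)) ∧ ⋃ n, C n = U := by
  classical
  obtain ⟨k, hk⟩ : ∃ k : T e → ℕ, ∀ s ∈ U, V s (k s) ⊆ U :=
    ⟨fun s => if h : s ∈ U then (hU s h).choose else 0, fun s h => by
      simp only [dif_pos h]; exact (hU s h).choose_spec⟩
  obtain ⟨α, hα⟩ := bound hc hs {s ∈ U | ∀ r ∈ U, Lt r s → s.1.2 r.1.1 < k r} k
    fun s a t b c => (b.2 s a.1 c).ne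
  refine ⟨fun n => ⋃ s ∈ {s ∈ U | s.1.1 < α ∧ ∀ ξ < s.1.1, s.1.2 ξ = e α ξ ∨ s.1.2 ξ ≤ n}, V s (k s),
    fun n => ⟨⟨fun t ht => ⟨max n (e α t.1.1) + 1, fun u hu hu' => ?_⟩⟩,
      isOpen_biUnion fun _ _ => op _ _⟩, Subset.antisymm (iUnion_subset fun n =>
      iUnion₂_subset fun s a => hk s a.1) fun t ht => ?_⟩
  · obtain ⟨s, a, b⟩ := mem_iUnion₂.1 hu'
    rcases tri hu b with rfl | c | c
    · exact ht (mem_biUnion a (Or.inl rfl))
    · have := meet hu b c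
      have := a.2.2 _ c.1
      omega
    · exact ht (mem_biUnion a (Or.inr ⟨c, meet b hu c⟩))
  · obtain ⟨s, ⟨s1, s2⟩, s3⟩ := (InvImage.wf (fun s : T e => s.1.1) wellFounded_lt).has_min
      {s ∈ U | t ∈ V s (k s)} ⟨t, ht, Or.inl rfl⟩
    have l := hα s ⟨s1, fun r a c => not_le.1 fun u => s3 r ⟨a, sub _ c u s2⟩ c.1⟩
    obtain ⟨n, hn⟩ := ((s.2.1.union (hc _ _ l.le)).image s.1.2).bddAbove
    refine mem_iUnion.2 ⟨n, mem_biUnion (x := s) ⟨s1, l, fun ξ a => ?_⟩ s2⟩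
    by_contra w
    push Not at w
    refine w.2.not_ge (hn ⟨ξ, ?_, rfl⟩)
    by_contra v
    simp only [mem_union, mem_ofPred_eq, a, true_and, not_or, not_not] at v
    exact w.1 (v.1.trans v.2)

theorem result (h : CohSouslin) : ∃ (X : Type) (_ : TopologicalSpace X), T6Space X ∧
    (∃ B : Set (Set X), IsTopologicalBasis B ∧ ∅ ∉ B ∧
      (∀ U ∈ B, ∀ V ∈ B, U ⊆ V ∨ V ⊆ U ∨ Disjoint U V) ∧
      (∀ U ∈ B, ∀ S ⊆ B, S.Nonempty → (∀ W ∈ S, U ⊆ W) → ∃ W ∈ S, ∀ W' ∈ S, W' ⊆ W)) ∧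
    ¬ ∃ B : Set (Set X), IsTopologicalBasis B ∧ ∀ x : X, {U ∈ B | x ∈ U}.Countable := by
  classical
  obtain ⟨e, hc, hs⟩ := h
  have sep : ∀ s t : Set (T e), IsClosed t → Disjoint s t → HasSeparatingCover s t :=
    fun s t ht d => by
      obtain ⟨C, c1, c2⟩ := perf hc hs ht.isOpen_compl
      refine ⟨C, c2 ▸ d.subset_compl_right, fun n => ⟨(c1 n).isOpen, ?_⟩⟩
      rw [(c1 n).isClosed.closure_eq]
      exact disjoint_left.2 fun u a => c2.le (mem_iUnion.2 ⟨n, a⟩)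
  have t0 : T0Space (T e) := (t0Space_iff_exists_isOpen_xor_mem _).2 fun s t n => by
    rcases le_total s.1.1 t.1.1 with l | l
    · exact ⟨V t 0, op _ _, Or.inr ⟨Or.inl rfl, fun u => u.elim n fun u => u.1.1.not_ge l⟩⟩
    · exact ⟨V s 0, op _ _, Or.inl ⟨Or.inl rfl, fun u => u.elim n.symm fun u => u.1.1.not_ge l⟩⟩
  refine ⟨T e, inferInstance, { t0 with
    normal := fun s t a b d => hasSeparatingCovers_iff_separatedNhds.1 ⟨sep s t b d, sep t s a d.symm⟩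
    closed_gdelta := fun F hF => ?_ }, ⟨_, basis, ?_, ?_, ?_⟩, ?_⟩
  · obtain ⟨C, c1, c2⟩ := perf hc hs hF.isOpen_compl
    rw [← compl_compl F, ← c2, compl_iUnion]
    exact .iInter_of_isOpen fun n => (c1 n).compl.isOpen
  · rintro ⟨p, hp⟩
    exact hp.le (Or.inl rfl : p.1 ∈ V p.1 p.2)
  · rintro _ ⟨⟨s, k⟩, rfl⟩ _ ⟨⟨t, j⟩, rfl⟩
    by_cases d : Disjoint (V s k) (V t j)
    · exact Or.inr (Or.inr d)
    obtain ⟨u, a, b⟩ := not_disjoint_iff.1 d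
    rcases tri a b with rfl | c | c
    · exact (le_total j k).imp (anti s) fun l => Or.inl (anti s l)
    · exact Or.inr (Or.inl (sub j c (meet a b c)))
    · exact Or.inl (sub k c (meet b a c))
  · rintro _ ⟨⟨u, i⟩, rfl⟩ S hS ⟨W, hW⟩ hU
    obtain ⟨s, s1, s2⟩ := (InvImage.wf (fun s : T e => s.1.1) wellFounded_lt).has_min
      {s | ∃ k, V s k ∈ S} (by obtain ⟨p, rfl⟩ := hS hW; exact ⟨p.1, p.2, hW⟩)
    refine ⟨_, Nat.find_spec s1, fun W' hW' => ?_⟩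
    obtain ⟨⟨t, j⟩, rfl⟩ := hS hW'
    have a := hU _ (Nat.find_spec s1) (Or.inl rfl : u ∈ V u i)
    have b := hU _ hW' (Or.inl rfl : u ∈ V u i)
    rcases tri a b with rfl | c | c
    · exact anti s (Nat.find_min' s1 hW')
    · exact sub j c (meet a b c)
    · exact absurd c.1 (s2 t ⟨j, hW'⟩)
  rintro ⟨B, hB, hp⟩
  choose O o1 o2 o3 using fun s : T e => hB.exists_subset_of_mem_open (Or.inl rfl) (op s 0)
  choose m hm using fun s => hB.isOpen (o1 s) s (o2 s)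
  choose g hg using fun β => bound hc hs
    {s | β ≤ s.1.1 ∧ ∀ r, Lt r s → β ≤ r.1.1 → s.1.2 r.1.1 < m r} m
    fun s a t b c => (b.2 s c a.1).ne
  have := H33.DiaDefs.unc
  have : Nonempty W2 := (bd2 ∅ (by rw [mk_eq_zero]; exact aleph_pos _)).nonempty
  obtain ⟨f, hf⟩ := H55.Nd.rec_e (T := H33.DiaDefs.W) id
    (fun ξ f (x : W2) => ∀ η < ξ, max (f η) (g (f η)) < x)
    (fun ξ f f' x a b η c => a η c ▸ b η c) fun ξ f _ => by
      obtain ⟨x, hx⟩ := bd2 _ ((le_aleph0_iff_set_countable.2 ((H33.DiaDefs.cnt ξ).image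
        fun η => max (f η) (g (f η)))).trans_lt (aleph0_lt_aleph.2 two_pos))
      exact ⟨x, fun η c => hx _ ⟨η, c, rfl⟩⟩
  obtain ⟨γ, hγ⟩ := bd2 (range fun η => max (f η) (g (f η)))
    (mk_range_le.trans_lt (H33.DiaDefs.mk_W.trans_lt (aleph_lt_aleph.2 one_lt_two)))
  have nd : ∀ α ≤ γ, ∃ t : T e, t.1.1 = α ∧ ∀ ξ < α, t.1.2 ξ = e γ ξ := fun α l =>
    ⟨⟨(α, fun ξ => if ξ < α then e γ ξ else 0), (hc α γ l).subset fun ξ a =>
      ⟨a.1, fun u => a.2 (by simp only [show ξ < α from a.1, if_true, u])⟩,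
      fun ξ a => if_neg (not_lt.2 a)⟩, rfl, fun ξ a => if_pos a⟩
  obtain ⟨t, t1, t2⟩ := nd γ le_rfl
  have : ∀ η, ∃ r, f η ≤ r.1.1 ∧ r.1.1 < max (f η) (g (f η)) ∧ t ∈ V r (m r) := fun η => by
    have l := hγ _ ⟨η, rfl⟩
    obtain ⟨s, s1, s2⟩ := nd _ l.le
    by_contra w
    push Not at w
    refine (hg (f η) s ⟨s1 ▸ le_max_left _ _, fun r c a => not_le.1 fun u => ?_⟩).not_ge
      (s1 ▸ le_max_right _ _)
    have c1 := c.1.trans_eq s1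
    refine w r a c1 (Or.inr ⟨⟨t1 ▸ c1.trans l, fun ξ b => ?_⟩, ?_⟩)
    · rw [c.2 ξ b, s2 ξ (b.trans c1), t2 ξ ((b.trans c1).trans l)]
    · rwa [t2 _ (c1.trans l), ← s2 _ c1]
  choose r r1 r2 r3 using this
  have key : ∀ η ξ, η < ξ → O (r η) ≠ O (r ξ) := fun η ξ c u =>
    (((r2 η).trans (hf ξ η c)).trans_le (r1 ξ)).not_ge (ag (o3 _ (u ▸ o2 (r η)))).1
  refine not_countable_univ (((hp t).preimage (f := fun η => O (r η)) fun η ξ u => ?_).mono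
    fun η _ => mem_preimage.2 (mem_sep_iff.2 ⟨o1 _, hm _ (r3 η)⟩))
  rcases lt_trichotomy η ξ with c | c | c
  exacts [absurd u (key _ _ c), c, absurd u.symm (key _ _ c)]

end Pool.Agent.Results.MP_0d2ecd_gt.CohTree
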